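import Mathlib
import Pool.Agent.helper2.BVFinal

/-!
# Beta invariant versus normalized volume of matroid base polytopes

For every connected matroid `M` of rank `k` on `n ≥ 2` elements,
`β(M) * C(n-2, k-1) ≤ Vol(M)`, with equality exactly for the minimal matroids `T_{k,n}` and for
`U_{2,4}`.

Sketch of the proof.  Fix a basis `B`.  The pyramids with apex `e_B` over the facets `x_e = 0`
(`e ∈ B`), which is `P(M \ e)`, and `x_e = 1` (`e ∉ B`), which is `P(M / e)`, are almost disjoint,
so `Vol(M) ≥ ∑_{e ∈ B} Vol(M \ e) + ∑_{e ∉ B} Vol(M / e)` (`pyramid`).  By induction the right side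
is at least a combination of the `β(M \ e)` and `β(M / e) = β(M) - β(M \ e)`, and a basis of maximal
weight for the weights `β(M \ e)` makes this combination at least `β(M) * C(n-2, k-1)`; the
difference is a sum, over the level sets `D` of the weights, of
`(n-2) (r(D) - 1) - (k-1) (|D| - (n-k)) ≥ 0` (`greedy_defect`, `term_nonneg`).
-/

set_option autoImplicit false

open MeasureTheory

namespace Pool.Agent.Results.MP_701a37_co.BetaVolume

/-! ### Definitions used in the statement -/

/-- The rank of a set, as a natural number. -/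
noncomputable def rk {n : ℕ} (M : Matroid (Fin n)) (A : Set (Fin n)) : ℕ := (M.eRk A).toNat

/-- The beta invariant `(-1)^{r(M)} ∑_A (-1)^{|A|} r(A)`. -/
noncomputable def beta {n : ℕ} (M : Matroid (Fin n)) : ℤ :=
  (-1) ^ (rk M Set.univ) *
    ∑ A : Finset (Fin n), (-1) ^ A.card * (rk M (A : Set (Fin n)) : ℤ)

/-- The base polytope: the convex hull of the indicator vectors of the bases. -/
def basePolytope {n : ℕ} (M : Matroid (Fin n)) : Set (Fin n → ℝ) :=
  convexHull ℝ {x | ∃ B : Set (Fin n), M.IsBase B ∧ x = B.indicator (fun _ => 1)}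

/-- The normalized volume: `(n-1)!` times the Lebesgue measure of the image of the base polytope
under `(x_1, ..., x_n) ↦ (x_1, ..., x_{n-1})`. -/
noncomputable def normVol {n : ℕ} (M : Matroid (Fin n)) : ℝ :=
  ((n - 1).factorial : ℝ) *
    (volume ((fun (x : Fin n → ℝ) (i : Fin (n - 1)) => x (Fin.castLE (Nat.sub_le n 1) i)) ''
      basePolytope M)).toReal

/-- `M` is connected: the ground set is not the union of two disjoint nonempty sets `A`, `Aᶜ` with
`r(A) + r(Aᶜ) = r(M)`, that is, `M` is not a direct sum of two matroids on nonempty sets. -/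
def IsConnected {n : ℕ} (M : Matroid (Fin n)) : Prop :=
  ∀ A : Set (Fin n), A.Nonempty → Aᶜ.Nonempty → rk M A + rk M Aᶜ ≠ rk M Set.univ

/-- `M` is isomorphic to `T_{k,n}`, the cycle matroid of the multigraph obtained from a cycle of
length `k+1` by replacing one edge with `n-k` parallel edges.  After the relabelling `σ` the
elements `i < k` are the other edges of the cycle and the elements `i ≥ k` are the parallel ones;
the bases (spanning trees) are the `k`-element sets with at most one parallel edge. -/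
def IsIsoMinimal (k : ℕ) {n : ℕ} (M : Matroid (Fin n)) : Prop :=
  ∃ σ : Equiv.Perm (Fin n), ∀ B : Finset (Fin n),
    M.IsBase (σ '' (B : Set (Fin n))) ↔
      (B.card = k ∧ (B.filter (fun i => k ≤ i.val)).card ≤ 1)

/-- `M` is isomorphic to `U_{2,4}`. -/
def IsIsoUniformTwoFour {n : ℕ} (M : Matroid (Fin n)) : Prop :=
  n = 4 ∧ ∀ B : Finset (Fin n), M.IsBase (B : Set (Fin n)) ↔ B.card = 2

/-! ### From Mathlib matroids to rank functions -/

open Pool.Agent.helper2.BV

variable {n m : ℕ}

lemma coe_rk (M : Matroid (Fin n)) (A : Set (Fin n)) : (rk M A : ℕ∞) = M.eRk A := by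
  unfold rk
  apply ENat.natCast_toNat
  exact ((M.eRk_le_encard A).trans_lt (Set.toFinite A).encard_lt_top).ne

lemma rk_mono (M : Matroid (Fin n)) {A B : Set (Fin n)} (h : A ⊆ B) : rk M A ≤ rk M B := by
  have := M.eRk_mono h
  rw [← coe_rk, ← coe_rk] at this
  exact_mod_cast this

/-- The rank function of a Mathlib matroid. -/
noncomputable def toRM (M : Matroid (Fin n)) : RM n where
  r A := (rk M (A : Set (Fin n)) : ℤ)
  r_empty := by
    have : rk M ((∅ : Finset (Fin n)) : Set (Fin n)) = 0 := by
      unfold rk; simp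
    rw [this]; rfl
  r_mono A B h := by
    have := rk_mono M (Finset.coe_subset.2 h)
    exact_mod_cast this
  r_insert A e := by
    have := M.eRk_insert_le_add_one e (A : Set (Fin n))
    rw [← coe_rk, ← coe_rk] at this
    rw [Finset.coe_insert]
    exact_mod_cast this
  r_submod A B := by
    have := M.eRk_submod (A : Set (Fin n)) (B : Set (Fin n))
    rw [← coe_rk, ← coe_rk, ← coe_rk, ← coe_rk] at this
    rw [Finset.coe_union, Finset.coe_inter]
    have h' : rk M ((A : Set (Fin n)) ∩ B) + rk M ((A : Set (Fin n)) ∪ B)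
        ≤ rk M (A : Set (Fin n)) + rk M (B : Set (Fin n)) := by exact_mod_cast this
    have h2 : (rk M ((A : Set (Fin n)) ∩ B) : ℤ) + (rk M ((A : Set (Fin n)) ∪ B) : ℤ)
        ≤ (rk M (A : Set (Fin n)) : ℤ) + (rk M (B : Set (Fin n)) : ℤ) := by exact_mod_cast h'
    linarith

lemma toRM_k (M : Matroid (Fin n)) : (toRM M).k = (rk M Set.univ : ℤ) := by
  show (rk M ((Finset.univ : Finset (Fin n)) : Set (Fin n)) : ℤ) = _
  rw [Finset.coe_univ]

lemma mem_bases (M : Matroid (Fin n)) (hE : M.E = Set.univ) (B : Finset (Fin n)) :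
    B ∈ (toRM M).bases ↔ M.IsBase (B : Set (Fin n)) := by
  have hcard : ((B : Set (Fin n)).encard) = ((B.card : ℕ) : ℕ∞) := Set.encard_coe_eq_coe_finsetCard B
  constructor
  · rintro ⟨h1, h2⟩
    have h1' : rk M (B : Set (Fin n)) = B.card := by
      have : (rk M (B : Set (Fin n)) : ℤ) = B.card := h1
      exact_mod_cast this
    have h2' : rk M (B : Set (Fin n)) = rk M Set.univ := by
      have : (rk M (B : Set (Fin n)) : ℤ) = (toRM M).k := h2
      rw [toRM_k] at this
      exact_mod_cast this
    obtain ⟨I, hI⟩ := M.exists_isBasis (B : Set (Fin n)) (by rw [hE]; exact Set.subset_univ _)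
    have h3 := hI.encard_eq_eRk
    rw [← coe_rk, h1', ← hcard] at h3
    have hIB : I = (B : Set (Fin n)) :=
      Set.Finite.eq_of_subset_of_encard_le (Set.toFinite _) hI.subset h3.ge
    have hind : M.Indep (B : Set (Fin n)) := hIB ▸ hI.indep
    obtain ⟨B', hB', hsub⟩ := hind.exists_isBase_superset
    have h4 := hB'.encard_eq_eRank
    rw [M.eRank_def, hE, ← coe_rk, ← h2', h1', ← hcard] at h4
    have : (B : Set (Fin n)) = B' :=
      Set.Finite.eq_of_subset_of_encard_le (Set.toFinite _) hsub h4.le
    rw [this]; exact hB'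
  · intro hB
    have h1 := hB.indep.eRk_eq_encard
    rw [← coe_rk, hcard] at h1
    have h1' : rk M (B : Set (Fin n)) = B.card := by exact_mod_cast h1
    have h2 := hB.eRk_eq_eRank
    rw [M.eRank_def, hE, ← coe_rk, ← coe_rk] at h2
    have h2' : rk M (B : Set (Fin n)) = rk M Set.univ := by exact_mod_cast h2
    refine ⟨?_, ?_⟩
    · show (rk M (B : Set (Fin n)) : ℤ) = B.card
      exact_mod_cast h1'
    · rw [toRM_k]
      show (rk M (B : Set (Fin n)) : ℤ) = _
      exact_mod_cast h2'

lemma poly_eq (M : Matroid (Fin n)) (hE : M.E = Set.univ) :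
    poly (toRM M).bases = basePolytope M := by
  unfold poly basePolytope
  congr 1
  ext x
  constructor
  · rintro ⟨B, hB, rfl⟩
    refine ⟨(B : Set (Fin n)), (mem_bases M hE B).1 hB, ?_⟩
    ext i
    by_cases h : i ∈ B
    · simp [ind, h]
    · simp [ind, h]
  · rintro ⟨B, hB, rfl⟩
    classical
    have hc : ((B.toFinset : Finset (Fin n)) : Set (Fin n)) = B := by simp
    refine ⟨B.toFinset, (mem_bases M hE _).2 (by rw [hc]; exact hB), ?_⟩
    ext i
    by_cases h : i ∈ B
    · simp [ind, h]
    · simp [ind, h]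

lemma normVol_eq (M : Matroid (Fin (m+1))) (hE : M.E = Set.univ) : (toRM M).Vol = normVol M := by
  unfold RM.Vol normVol V
  rw [poly_eq M hE]
  rfl

lemma beta_eq (M : Matroid (Fin n)) : (toRM M).beta = beta M := by
  unfold RM.beta beta
  rw [toRM_k, Int.toNat_natCast]
  rfl

lemma conn_of (M : Matroid (Fin n)) (h : IsConnected M) : (toRM M).Conn := by
  intro A hA hA'
  have h1 := h (A : Set (Fin n)) (Finset.coe_nonempty.2 hA)
    (by rw [← Finset.coe_compl]; exact Finset.coe_nonempty.2 hA')
  have h2 := (toRM M).k_le_sep A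
  refine lt_of_le_of_ne h2 ?_
  intro h3
  apply h1
  rw [toRM_k] at h3
  have h4 : (rk M Set.univ : ℤ) = (rk M (A : Set (Fin n)) : ℤ) + (rk M ((Aᶜ : Finset (Fin n)) : Set (Fin n)) : ℤ) := h3
  rw [Finset.coe_compl] at h4
  exact_mod_cast h4.symm

lemma card_high (k n : ℕ) (hk : k ≤ n) :
    (Finset.univ.filter (fun i : Fin n => k ≤ i.val)).card = n - k := by
  have h1 : (Finset.univ.filter (fun i : Fin n => i.val < k)).card = k := by
    have : (Finset.univ.filter (fun i : Fin n => i.val < k)) =
        Finset.univ.map (Fin.castLEEmb hk) := by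
      ext i
      simp only [Finset.mem_filter, Finset.mem_univ, true_and, Finset.mem_map]
      constructor
      · intro h; exact ⟨⟨i.val, h⟩, by ext; rfl⟩
      · rintro ⟨j, rfl⟩; exact j.isLt
    rw [this, Finset.card_map, Finset.card_univ, Fintype.card_fin]
  have h2 := Finset.card_filter_add_card_filter_not (s := (Finset.univ : Finset (Fin n))) (fun i : Fin n => i.val < k)
  rw [h1, Finset.card_univ, Fintype.card_fin] at h2
  have h3 : (Finset.univ.filter (fun i : Fin n => k ≤ i.val)) = Finset.univ.filter (fun i : Fin n => ¬ i.val < k) := by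
    ext i; simp
  rw [h3]; omega

lemma isT_iff (M : Matroid (Fin n)) (hE : M.E = Set.univ) (k : ℕ) (hk : rk M Set.univ = k) (hkn : k ≤ n) :
    (toRM M).IsT ↔ IsIsoMinimal k M := by
  classical
  set H : Finset (Fin n) := Finset.univ.filter (fun i : Fin n => k ≤ i.val) with hH
  have hHc : H.card = n - k := card_high k n hkn
  constructor
  · rintro ⟨D, hD, hB⟩
    rw [toRM_k, hk] at hD
    have hDc : D.card = n - k := by omega
    have e : {x // x ∈ H} ≃ {x // x ∈ D} := Finset.equivOfCardEq (by rw [hHc, hDc])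
    set σ : Equiv.Perm (Fin n) := e.extendSubtype with hσ
    have hσmem : ∀ x, σ x ∈ D ↔ x ∈ H := by
      intro x
      constructor
      · intro h
        by_contra hx
        exact (e.extendSubtype_not_mem x hx) h
      · intro h
        exact e.extendSubtype_mem x h
    refine ⟨σ, ?_⟩
    intro B
    have h1 : σ '' (B : Set (Fin n)) = ((B.map σ.toEmbedding : Finset (Fin n)) : Set (Fin n)) := by
      rw [Finset.coe_map]; rfl
    rw [h1, ← mem_bases M hE, hB, toRM_k, hk, Finset.card_map]
    have h2 : B.map σ.toEmbedding ∩ D = (B.filter (fun i => k ≤ i.val)).map σ.toEmbedding := by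
      ext x
      simp only [Finset.mem_inter, Finset.mem_map, Finset.mem_filter]
      constructor
      · rintro ⟨⟨y, hy, rfl⟩, hD'⟩
        refine ⟨y, ⟨hy, ?_⟩, rfl⟩
        have := (hσmem y).1 hD'
        simpa [hH] using this
      · rintro ⟨y, ⟨hy, hky⟩, rfl⟩
        refine ⟨⟨y, hy, rfl⟩, ?_⟩
        exact (hσmem y).2 (by simpa [hH] using hky)
    rw [h2, Finset.card_map]
    constructor
    · rintro ⟨a, b⟩; exact ⟨by exact_mod_cast a, b⟩
    · rintro ⟨a, b⟩; exact ⟨by exact_mod_cast a, b⟩
  · rintro ⟨σ, hσ⟩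
    refine ⟨H.map σ.toEmbedding, ?_, ?_⟩
    · rw [toRM_k, hk, Finset.card_map, hHc]; omega
    · intro B
      set B' : Finset (Fin n) := B.map σ.symm.toEmbedding with hB'
      have h1 : σ '' (B' : Set (Fin n)) = (B : Set (Fin n)) := by
        rw [hB', Finset.coe_map]
        ext x
        constructor
        · rintro ⟨_, ⟨y, hy, rfl⟩, rfl⟩
          simpa using hy
        · intro hx
          exact ⟨σ.symm x, ⟨x, hx, rfl⟩, by simp⟩
      rw [mem_bases M hE, ← h1, hσ, toRM_k, hk, hB', Finset.card_map]
      have h2 : (B ∩ H.map σ.toEmbedding).card = ((B.map σ.symm.toEmbedding).filter (fun i => k ≤ i.val)).card := by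
        have : (B.map σ.symm.toEmbedding).filter (fun i => k ≤ i.val) = (B ∩ H.map σ.toEmbedding).map σ.symm.toEmbedding := by
          ext x
          simp only [Finset.mem_inter, Finset.mem_map, Finset.mem_filter]
          constructor
          · rintro ⟨⟨y, hy, rfl⟩, hk'⟩
            refine ⟨y, ⟨hy, ⟨σ.symm y, by simpa [hH] using hk', by simp⟩⟩, rfl⟩
          · rintro ⟨y, ⟨hy, ⟨z, hz, hzy⟩⟩, rfl⟩
            refine ⟨⟨y, hy, rfl⟩, ?_⟩
            subst hzy
            simpa [hH] using hz
        rw [this, Finset.card_map]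
      rw [← h2]
      constructor
      · rintro ⟨a, b⟩; exact ⟨by exact_mod_cast a, b⟩
      · rintro ⟨a, b⟩; exact ⟨by exact_mod_cast a, b⟩

lemma isU_iff (M : Matroid (Fin n)) (hE : M.E = Set.univ) :
    (toRM M).IsU24 ↔ IsIsoUniformTwoFour M := by
  unfold RM.IsU24 IsIsoUniformTwoFour
  simp only [mem_bases M hE]

/-- For every connected matroid `M` of rank `k` on `{1, ..., n}`, `n ≥ 2`, one has
`β(M) * C(n-2, k-1) ≤ Vol(M)`, with equality if and only if `M` is isomorphic to `T_{k,n}` or to
`U_{2,4}`. -/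
theorem result :
    ∀ (n k : ℕ) (M : Matroid (Fin n)), 2 ≤ n → M.E = Set.univ → rk M Set.univ = k →
      IsConnected M →
      (beta M : ℝ) * (Nat.choose (n - 2) (k - 1) : ℝ) ≤ normVol M ∧
      ((beta M : ℝ) * (Nat.choose (n - 2) (k - 1) : ℝ) = normVol M ↔
        (IsIsoMinimal k M ∨ IsIsoUniformTwoFour M)) := by
  intro n k M hn hE hk hM
  obtain ⟨m, rfl⟩ : ∃ m, n = m + 2 := ⟨n - 2, by omega⟩
  have hconn := conn_of M hM
  have hkn : k ≤ m + 2 := by
    have := M.eRk_le_encard Set.univ
    rw [← coe_rk, hk] at this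
    have h2 : (Set.univ : Set (Fin (m+2))).encard = ((m + 2 : ℕ) : ℕ∞) := by
      rw [Set.encard_univ]; simp
    rw [h2] at this
    exact_mod_cast this
  have key := (toRM M).final hconn
  rw [beta_eq, normVol_eq (m := m+1) M hE, isT_iff M hE k hk hkn, isU_iff M hE, toRM_k, hk,
    Int.toNat_natCast] at key
  exact key

end Pool.Agent.Results.MP_701a37_co.BetaVolume
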